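import Mathlib

set_option autoImplicit false

namespace Pool.Agent.Results.MP_3eafcc_gt.Example

open Set Filter Topology

theorem two_coz {X : Type} [TopologicalSpace X] (h k : C(X, ℝ)) :
    {x | (h * k) x ≠ 0} = {x | h x ≠ 0} ∩ {x | k x ≠ 0} := by
  ext x
  simp

theorem two_dense {X : Type} [TopologicalSpace X] {h k : C(X, ℝ)} (hh : Dense {x | h x ≠ 0})
    (hk : Dense {x | k x ≠ 0}) : Dense {x | (h * k) x ≠ 0} := by
  rw [two_coz]
  exact hh.inter_of_isOpen_left hk (isOpen_ne_fun h.continuous continuous_const)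

/-- The ring `T''(X)`: real functions continuous on some dense cozero set. -/
def Tpp (X : Type) [TopologicalSpace X] : Subring (X → ℝ) where
  carrier := {f | ∃ h : C(X, ℝ), Dense {x | h x ≠ 0} ∧ ContinuousOn f {x | h x ≠ 0}}
  mul_mem' := by
    rintro f g ⟨h, hh, hf⟩ ⟨k, hk, hg⟩
    refine ⟨h * k, two_dense hh hk, ?_⟩
    rw [two_coz]
    exact (hf.mono inter_subset_left).mul (hg.mono inter_subset_right)
  one_mem' := ⟨1, by simp, continuousOn_const⟩
  add_mem' := by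
    rintro f g ⟨h, hh, hf⟩ ⟨k, hk, hg⟩
    refine ⟨h * k, two_dense hh hk, ?_⟩
    rw [two_coz]
    exact (hf.mono inter_subset_left).add (hg.mono inter_subset_right)
  zero_mem' := ⟨1, by simp, continuousOn_const⟩
  neg_mem' := by
    rintro f ⟨h, hh, hf⟩
    exact ⟨h, hh, hf.neg⟩

/-- Every element is a unit or a zero divisor. -/
def AlmostRegular (R : Type) [CommRing R] : Prop :=
  ∀ a : R, IsUnit a ∨ ∃ b : R, b ≠ 0 ∧ a * b = 0

/-- The example. -/
def X : Type := ℕ ⊕ ℕ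

def l (n : ℕ) : X := Sum.inl n
def r (n : ℕ) : X := Sum.inr n

theorem l_ne_r (m n : ℕ) : l m ≠ r n := Sum.inl_ne_inr
theorem l_inj {m n : ℕ} (h : l m = l n) : m = n := Sum.inl.inj h
theorem r_inj {m n : ℕ} (h : r m = r n) : m = n := Sum.inr.inj h
theorem cases_X (x : X) : (∃ n, x = l n) ∨ ∃ n, x = r n := by
  rcases x with n | n
  · exact Or.inl ⟨n, rfl⟩
  · exact Or.inr ⟨n, rfl⟩

instance : TopologicalSpace X where
  IsOpen U := ((∃ n, r n ∈ U) → ∀ᶠ n in atTop, r n ∈ U) ∧ (r 0 ∈ U → ∀ᶠ n in atTop, l n ∈ U)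
  isOpen_univ := ⟨fun _ => Eventually.of_forall fun _ => mem_univ _,
    fun _ => Eventually.of_forall fun _ => mem_univ _⟩
  isOpen_inter := by
    rintro U V ⟨h1, h2⟩ ⟨k1, k2⟩
    exact ⟨fun ⟨n, hn⟩ => (h1 ⟨n, hn.1⟩).and (k1 ⟨n, hn.2⟩), fun h => (h2 h.1).and (k2 h.2)⟩
  isOpen_sUnion := by
    intro S hS
    constructor
    · rintro ⟨n, U, hU, hn⟩
      exact ((hS U hU).1 ⟨n, hn⟩).mono fun m hm => ⟨U, hU, hm⟩
    · rintro ⟨U, hU, hn⟩
      exact ((hS U hU).2 hn).mono fun m hm => ⟨U, hU, hm⟩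

theorem open_iff (U : Set X) : IsOpen U ↔
    ((∃ n, r n ∈ U) → ∀ᶠ n in atTop, r n ∈ U) ∧ (r 0 ∈ U → ∀ᶠ n in atTop, l n ∈ U) := Iff.rfl

theorem t1 : T1Space X := by
  refine ⟨fun x => ?_⟩
  rw [← isOpen_compl_iff, open_iff]
  rcases cases_X x with ⟨n, rfl⟩ | ⟨n, rfl⟩
  · refine ⟨fun _ => Eventually.of_forall fun m h => l_ne_r _ _ (mem_singleton_iff.1 h).symm,
      fun _ => ?_⟩
    filter_upwards [eventually_gt_atTop n] with m hm h
    exact hm.ne' (l_inj h)
  · refine ⟨fun _ => ?_, fun _ => Eventually.of_forall fun m h => l_ne_r _ _ h⟩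
    filter_upwards [eventually_gt_atTop n] with m hm h
    exact hm.ne' (r_inj h)

theorem tend_r (n : ℕ) : Tendsto r atTop (𝓝 (r n)) := by
  rw [tendsto_nhds]
  exact fun U hU hn => hU.1 ⟨n, hn⟩

theorem tend_l : Tendsto l atTop (𝓝 (r 0)) := by
  rw [tendsto_nhds]
  exact fun U hU hn => hU.2 hn

theorem const_r {g : X → ℝ} (hg : Continuous g) (n : ℕ) : g (r n) = g (r 0) :=
  tendsto_nhds_unique ((hg.tendsto _).comp (tend_r n)) ((hg.tendsto _).comp (tend_r 0))

theorem coz_univ {h : C(X, ℝ)} (hd : Dense {x | h x ≠ 0}) : {x | h x ≠ 0} = univ := by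
  rw [eq_univ_iff_forall]
  intro x
  rcases cases_X x with ⟨n, rfl⟩ | ⟨n, rfl⟩
  · have ho : IsOpen ({l n} : Set X) := by
      rw [open_iff]
      exact ⟨fun ⟨m, hm⟩ => (l_ne_r _ _ (mem_singleton_iff.1 hm).symm).elim,
        fun hm => (l_ne_r _ _ (mem_singleton_iff.1 hm).symm).elim⟩
    obtain ⟨y, hy, hy2⟩ := hd.inter_open_nonempty _ ho (singleton_nonempty _)
    rwa [mem_singleton_iff.1 hy] at hy2
  · have ho : IsOpen {x : X | ∃ m, x = r (m + 1)} := by
      rw [open_iff]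
      refine ⟨fun _ => ?_, fun ⟨m, hm⟩ => ?_⟩
      · filter_upwards [eventually_ge_atTop 1] with m hm
        exact ⟨m - 1, by rw [Nat.sub_add_cancel hm]⟩
      · have := r_inj hm
        omega
    obtain ⟨y, ⟨m, rfl⟩, hy2⟩ := hd.inter_open_nonempty _ ho ⟨r 1, 0, rfl⟩
    show h (r n) ≠ 0
    rw [const_r h.continuous n, ← const_r h.continuous (m + 1)]
    exact hy2

noncomputable def f : X → ℝ := Sum.elim (fun n : ℕ => 1 / ((n : ℝ) + 1)) (fun _ => 0)

theorem f_l (n : ℕ) : f (l n) = 1 / ((n : ℝ) + 1) := rfl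
theorem f_r (n : ℕ) : f (r n) = 0 := rfl

theorem f_cont : Continuous f := by
  rw [continuous_def]
  intro U hU
  rw [open_iff]
  refine ⟨fun ⟨n, hn⟩ => Eventually.of_forall fun m => hn, fun h0 => ?_⟩
  exact tendsto_one_div_add_atTop_nhds_zero_nat.eventually (hU.mem_nhds h0)

theorem result : ∃ (X : Type) (_ : TopologicalSpace X), T1Space X ∧ ¬ AlmostRegular (Tpp X) := by
  refine ⟨X, inferInstance, t1, fun H => ?_⟩
  rcases H ⟨f, 1, by simp, f_cont.continuousOn⟩ with hu | ⟨⟨g, h, hd, hg⟩, hb, hfg⟩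
  · obtain ⟨b, hb⟩ := hu.exists_right_inv
    have := congrFun (congrArg Subtype.val hb) (r 0)
    change f (r 0) * b.1 (r 0) = 1 at this
    rw [f_r] at this
    simp at this
  · apply hb
    rw [coz_univ hd, continuousOn_univ] at hg
    have hl : ∀ n, g (l n) = 0 := by
      intro n
      have := congrFun (congrArg Subtype.val hfg) (l n)
      change f (l n) * g (l n) = 0 at this
      rw [f_l] at this
      rcases mul_eq_zero.1 this with h1 | h1
      · exact absurd h1 (by positivity)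
      · exact h1
    have h0 : g (r 0) = 0 := by
      have h1 := (hg.tendsto _).comp tend_l
      have h2 : g ∘ l = fun _ => 0 := funext hl
      rw [h2] at h1
      exact tendsto_nhds_unique h1 tendsto_const_nhds
    apply Subtype.ext
    funext x
    rcases cases_X x with ⟨n, rfl⟩ | ⟨n, rfl⟩
    · exact hl n
    · exact (const_r hg n).trans h0

end Pool.Agent.Results.MP_3eafcc_gt.Example
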